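import Pool.Agent.H90.Mx.DFinal

/-!
# Consistency of a Δ-set of reals whose square is not a Δ-set

All definitions used by the statement are in `Pool/Agent/H90/Frc/Stmt.lean` (first-order formulas of
set theory, satisfaction, models of ZFC, basic vocabulary), `Pool/Agent/H90/SN/Stmt.lean` (only
`Op`), `Pool/Agent/H90/Mx/Stmt.lean` (only `IsFun`) and `Pool/Agent/H90/Mx/DStmt.lean` (the statement
`DeltaStatement` about a structure `(M, E)` all of whose quantifiers range over `M`).

The model is a countable generic extension of the universe of small sets (names in `Type 1` over a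
partial order in `Type`) by a ccc partial order of finite conditions.
-/

set_option autoImplicit false

namespace Pool.Agent.Results.MP_d5ec8b_lc.DeltaSquareModel

open Pool.Agent.H90.Frc Pool.Agent.H90.Mx

/-- There is a sentence `s` of the language of set theory which says, in every structure, that there
is a Δ-set of reals whose square is not a Δ-set, and this sentence holds in some model of ZFC. -/
theorem result : ∃ s : Fml 0,
    (∀ (M : Type) (E : M → M → Prop), Sat E s Fin.elim0 ↔ DeltaStatement E) ∧
    ∃ (M : Type) (E : M → M → Prop), ZFC E ∧ Sat E s Fin.elim0 := by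
  obtain ⟨s, hs⟩ := dfn_deltaStatement (n := 0)
  obtain ⟨M, E, hz, hE⟩ := exists_model_dl
  exact ⟨s, fun M E => hs M E _, M, E, hz, (hs M E _).2 hE⟩

end Pool.Agent.Results.MP_d5ec8b_lc.DeltaSquareModel
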