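import Mathlib

set_option autoImplicit false

namespace Pool.Agent.Results.MP_d5ec8b_lc.SquareOfQSet

/-- `Z` is a Δ-space: every partition of `Z` into countably many pairwise disjoint sets has a
point-finite expansion to open sets. -/
def IsDeltaSpace (Z : Type) [TopologicalSpace Z] : Prop :=
  ∀ P : ℕ → Set Z, (∀ m n, m ≠ n → Disjoint (P m) (P n)) → (⋃ n, P n) = Set.univ →
    ∃ U : ℕ → Set Z, (∀ n, IsOpen (U n) ∧ P n ⊆ U n) ∧ ∀ z, {n | z ∈ U n}.Finite

/-- Every subset of `Z` is a `G_δ` set. For `Z = X ⊆ ℝ` this says that `X` is a `Q`-set. -/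
def IsQSpace (Z : Type) [TopologicalSpace Z] : Prop := ∀ A : Set Z, IsGδ A

lemma exists_closed_of_isGdelta {Z : Type} [TopologicalSpace Z] {A : Set Z} (h : IsGδ Aᶜ) :
    ∃ F : ℕ → Set Z, (∀ n, IsClosed (F n)) ∧ Monotone F ∧ (⋃ n, F n) = A := by
  obtain ⟨f, hf, hA⟩ := isGδ_iff_eq_iInter_nat.mp h
  refine ⟨fun n => ⋃ m ∈ Set.Iic n, (f m)ᶜ, ?_, ?_, ?_⟩
  · intro n
    exact (Set.finite_Iic n).isClosed_biUnion (fun m _ => (hf m).isClosed_compl)
  · intro m n hmn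
    exact Set.biUnion_subset_biUnion_left (Set.Iic_subset_Iic.mpr hmn)
  · rw [← compl_compl A, hA, Set.compl_iInter]
    ext z
    simp only [Set.mem_iUnion, Set.mem_Iic, exists_prop, Set.mem_compl_iff]
    constructor
    · rintro ⟨n, m, _, hz⟩
      exact ⟨m, hz⟩
    · rintro ⟨m, hz⟩
      exact ⟨m, m, le_rfl, hz⟩

lemma closed_cover {Z : Type} [TopologicalSpace Z] (h : IsDeltaSpace Z) (D : ℕ → Set Z)
    (hD : Monotone D) (hU : (⋃ n, D n) = Set.univ) :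
    ∃ E : ℕ → Set Z, (∀ n, IsClosed (E n) ∧ E n ⊆ D n) ∧ (⋃ n, E n) = Set.univ := by
  classical
  have hP : ∀ z : Z, ∃ n, z ∈ D n := fun z => Set.mem_iUnion.mp (hU ▸ Set.mem_univ z)
  obtain ⟨U, hU1, hU2⟩ := h (fun n => {z | Nat.find (hP z) = n}) (by
    intro m n hmn
    rw [Set.disjoint_left]
    rintro z hz1 hz2
    exact hmn (hz1.symm.trans hz2)) (by
    ext z
    simp)
  refine ⟨fun n => (⋃ m ∈ Set.Ioi n, U m)ᶜ, ?_, ?_⟩
  · intro n
    refine ⟨(isOpen_biUnion (fun m _ => (hU1 m).1)).isClosed_compl, ?_⟩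
    intro z hz
    have h1 : z ∈ U (Nat.find (hP z)) := (hU1 _).2 rfl
    have h2 : Nat.find (hP z) ≤ n := by
      by_contra hlt
      exact hz (Set.mem_biUnion (not_le.mp hlt) h1)
    exact hD h2 (Nat.find_spec (hP z))
  · apply Set.eq_univ_of_forall
    intro z
    obtain ⟨n, hn⟩ := (hU2 z).bddAbove
    refine Set.mem_iUnion.mpr ⟨n, ?_⟩
    intro hz
    obtain ⟨m, hm, hzm⟩ := Set.mem_iUnion₂.mp hz
    exact absurd (hn hzm) (not_le.mpr hm)

/-- `Q`-spaces are Δ-spaces. -/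
lemma delta_of_q {Z : Type} [TopologicalSpace Z] (h : IsQSpace Z) : IsDeltaSpace Z := by
  classical
  intro P hP hU
  have h1 : ∀ n, ∃ F : ℕ → Set Z, (∀ k, IsClosed (F k)) ∧ Monotone F ∧ (⋃ k, F k) = P n :=
    fun n => exists_closed_of_isGdelta (h _)
  choose F hF1 hF2 hF3 using h1
  refine ⟨fun n => (⋃ i ∈ Set.Iio n, F i n)ᶜ, ?_, ?_⟩
  · intro n
    refine ⟨((Set.finite_Iio n).isClosed_biUnion (fun i _ => hF1 i n)).isOpen_compl, ?_⟩
    intro z hz hz2
    obtain ⟨i, hi, hzi⟩ := Set.mem_iUnion₂.mp hz2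
    have h2 : z ∈ P i := by rw [← hF3 i]; exact Set.mem_iUnion.mpr ⟨n, hzi⟩
    exact Set.disjoint_left.mp (hP i n (ne_of_lt hi)) h2 hz
  · intro z
    have hz : z ∈ ⋃ n, P n := by rw [hU]; exact Set.mem_univ z
    obtain ⟨i, hi⟩ := Set.mem_iUnion.mp hz
    rw [← hF3 i] at hi
    obtain ⟨k, hk⟩ := Set.mem_iUnion.mp hi
    refine (Set.finite_Iic (max i k)).subset ?_
    intro n hn
    by_contra hlt
    have hlt' : max i k < n := not_le.mp hlt
    apply hn
    exact Set.mem_biUnion (x := i) (lt_of_le_of_lt (le_max_left _ _) hlt')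
      (hF2 i (le_of_lt (lt_of_le_of_lt (le_max_right _ _) hlt')) hk)

/-- If `X` and `Y` are `Q`-spaces, `Y` second countable, and `X × Y` is a Δ-space, then `X × Y`
is a `Q`-space. -/
lemma prod_q {X Y : Type} [TopologicalSpace X] [TopologicalSpace Y]
    [SecondCountableTopology Y] (hX : IsQSpace X) (hY : IsQSpace Y)
    (h : IsDeltaSpace (X × Y)) : IsQSpace (X × Y) := by
  classical
  intro C
  -- we show that the complement `A` of `C` is a countable union of closed sets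
  obtain ⟨A, rfl⟩ : ∃ A : Set (X × Y), Aᶜ = C := ⟨Cᶜ, compl_compl C⟩
  have hs : ∀ B : Set Y, ∃ F : ℕ → Set Y, (∀ n, IsClosed (F n)) ∧ Monotone F ∧ (⋃ n, F n) = B :=
    fun B => exists_closed_of_isGdelta (hY _)
  choose F hF1 hF2 hF3 using fun x : X => hs {y | (x, y) ∈ A}
  choose G hG1 hG2 hG3 using fun x : X => hs {y | (x, y) ∉ A}
  obtain ⟨E, hE1, hE2⟩ := closed_cover h (fun k => {p | p.2 ∈ F p.1 k ∪ G p.1 k}) (by
    intro m n hmn p hp
    rcases hp with hp | hp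
    · exact Or.inl (hF2 p.1 hmn hp)
    · exact Or.inr (hG2 p.1 hmn hp)) (by
    apply Set.eq_univ_of_forall
    rintro ⟨x, y⟩
    by_cases hxy : (x, y) ∈ A
    · have h1 : y ∈ ⋃ n, F x n := by rw [hF3]; exact hxy
      obtain ⟨k, hk⟩ := Set.mem_iUnion.mp h1
      exact Set.mem_iUnion.mpr ⟨k, Or.inl hk⟩
    · have h1 : y ∈ ⋃ n, G x n := by rw [hG3]; exact hxy
      obtain ⟨k, hk⟩ := Set.mem_iUnion.mp h1
      exact Set.mem_iUnion.mpr ⟨k, Or.inr hk⟩)
  let b := TopologicalSpace.countableBasis Y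
  have hb : b.Countable := TopologicalSpace.countable_countableBasis Y
  have hbasis : TopologicalSpace.IsTopologicalBasis b := TopologicalSpace.isBasis_countableBasis Y
  have hA : A = ⋃ k : ℕ, ⋃ B ∈ b, E k ∩ ({x | Disjoint B (G x k)} ×ˢ B) := by
    ext p
    obtain ⟨x, y⟩ := p
    constructor
    · intro hxy
      have h1 : (x, y) ∈ ⋃ n, E n := by rw [hE2]; exact Set.mem_univ _
      obtain ⟨k, hk⟩ := Set.mem_iUnion.mp h1
      have h2 : y ∉ G x k := by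
        intro h3
        have h4 : y ∈ ⋃ n, G x n := Set.mem_iUnion.mpr ⟨k, h3⟩
        rw [hG3] at h4
        exact h4 hxy
      obtain ⟨B, hB, hyB, hBG⟩ := hbasis.exists_subset_of_mem_open
        (show y ∈ (G x k)ᶜ from h2) (hG1 x k).isOpen_compl
      refine Set.mem_iUnion.mpr ⟨k, Set.mem_iUnion₂.mpr ⟨B, hB, hk, ?_, hyB⟩⟩
      exact Set.disjoint_left.mpr (fun z hz => hBG hz)
    · intro hp
      obtain ⟨k, hk⟩ := Set.mem_iUnion.mp hp
      obtain ⟨B, _, hkE, hdis, hyB⟩ := Set.mem_iUnion₂.mp hk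
      have h2 : y ∉ G x k := Set.disjoint_left.mp hdis hyB
      have h3 : y ∈ F x k := ((hE1 k).2 hkE).resolve_right h2
      have h4 : y ∈ ⋃ n, F x n := Set.mem_iUnion.mpr ⟨k, h3⟩
      rw [hF3] at h4
      exact h4
  rw [hA]
  simp only [Set.compl_iUnion]
  refine IsGδ.iInter (fun k => IsGδ.biInter hb (fun B hB => ?_))
  rw [Set.compl_inter]
  refine (hE1 k).1.isOpen_compl.isGδ.union ?_
  rw [Set.prod_eq, Set.compl_inter]
  refine IsGδ.union ?_ ?_
  · rw [← Set.preimage_compl]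
    exact (hX _).preimage continuous_fst
  · rw [← Set.preimage_compl]
    exact (hY _).preimage continuous_snd

/-- For a `Q`-set `X ⊆ ℝ`, the square `X²` is a Δ-set exactly when it is a `Q`-set. Hence every
`Q`-set whose square is not a `Q`-set is a Δ-set whose square is not a Δ-set. -/
theorem result :
    (∀ X : Set ℝ, IsQSpace X → (IsDeltaSpace (X × X) ↔ IsQSpace (X × X))) ∧
    (∀ X : Set ℝ, IsQSpace X → ¬ IsQSpace (X × X) → IsDeltaSpace X ∧ ¬ IsDeltaSpace (X × X)) ∧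
    ((∃ X : Set ℝ, IsQSpace X ∧ ¬ IsQSpace (X × X)) →
      ∃ X : Set ℝ, IsDeltaSpace X ∧ ¬ IsDeltaSpace (X × X)) ∧
    (∀ (X Y : Type) [TopologicalSpace X] [TopologicalSpace Y] [SecondCountableTopology Y],
      IsQSpace X → IsQSpace Y → (IsDeltaSpace (X × Y) ↔ IsQSpace (X × Y))) := by
  have h1 : ∀ X : Set ℝ, IsQSpace X → ¬ IsQSpace (X × X) →
      IsDeltaSpace X ∧ ¬ IsDeltaSpace (X × X) :=
    fun X hX hX2 => ⟨delta_of_q hX, fun h => hX2 (prod_q hX hX h)⟩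
  refine ⟨fun X hX => ⟨prod_q hX hX, delta_of_q⟩, h1,
    fun ⟨X, hX, hX2⟩ => ⟨X, h1 X hX hX2⟩, ?_⟩
  intro X Y _ _ _ hX hY
  exact ⟨prod_q hX hY, delta_of_q⟩

end Pool.Agent.Results.MP_d5ec8b_lc.SquareOfQSet
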